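import Pool.Agent.H11.KT.Targets

/-! Row P_RM of the board elk_modules: `RW` implies `MA`. -/

set_option autoImplicit false

namespace Pool.Agent.H78.KT

open Pool.Agent.H11.EL Pool.Agent.H11.KT
open scoped commutatorElement

theorem pf_RM : P_RM := by
  intro r w hRW H _ hds hlaw x y
  have hxA : x ∈ Subgroup.closure ({x, y} : Set H) := Subgroup.subset_closure (by simp)
  have hyA : y ∈ Subgroup.closure ({x, y} : Set H) := Subgroup.subset_closure (by simp)
  have hgen : Subgroup.closure ({⟨x, hxA⟩, ⟨y, hyA⟩} :
      Set (Subgroup.closure ({x, y} : Set H))) = ⊤ := by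
    have h1 := Subgroup.closure_closure_coe_preimage (k := ({x, y} : Set H))
    rw [← h1]
    congr 1
    ext g
    simp only [Set.mem_insert_iff, Set.mem_singleton_iff, Set.mem_preimage, Subtype.ext_iff]
  have hlawA : ∀ f : Fin r → Subgroup.closure ({x, y} : Set H), FreeGroup.lift f w = 1 := by
    intro f
    apply (Subgroup.closure ({x, y} : Set H)).subtype_injective
    have h1 : (Subgroup.closure ({x, y} : Set H)).subtype (FreeGroup.lift f w) =
        FreeGroup.lift (fun i => ((f i : Subgroup.closure ({x, y} : Set H)) : H)) w := by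
      have h2 : ((Subgroup.closure ({x, y} : Set H)).subtype.comp (FreeGroup.lift f)) =
          FreeGroup.lift (fun i => ((f i : Subgroup.closure ({x, y} : Set H)) : H)) := by
        ext i
        simp
      rw [← h2]
      rfl
    rw [h1, hlaw, map_one]
  obtain ⟨-, h2⟩ := hRW (Subgroup.closure ({x, y} : Set H)) ⟨x, hxA⟩ ⟨y, hyA⟩ hgen hlawA
  have h3 : derivedSeries (Subgroup.closure ({x, y} : Set H)) 2 = ⊥ := by
    have h4 := map_derivedSeries_le_derivedSeries
      (Subgroup.closure ({x, y} : Set H)).subtype 2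
    rw [hds, le_bot_iff] at h4
    exact (Subgroup.map_eq_bot_iff_of_injective _
      (Subgroup.closure ({x, y} : Set H)).subtype_injective).1 h4
  have h5 : commutator (Subgroup.closure ({x, y} : Set H)) = ⊥ := by
    rw [← h2, ← derivedSeries_one, ← derivedSeries_succ]
    exact h3
  have h6 : ⁅(⟨x, hxA⟩ : Subgroup.closure ({x, y} : Set H)),
      (⟨y, hyA⟩ : Subgroup.closure ({x, y} : Set H))⁆ = 1 := by
    have h7 : ⁅(⟨x, hxA⟩ : Subgroup.closure ({x, y} : Set H)),
        (⟨y, hyA⟩ : Subgroup.closure ({x, y} : Set H))⁆ ∈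
        commutator (Subgroup.closure ({x, y} : Set H)) :=
      Subgroup.commutator_mem_commutator (Subgroup.mem_top _) (Subgroup.mem_top _)
    rw [h5] at h7
    exact h7
  have h8 := commutatorElement_eq_one_iff_mul_comm.1 h6
  exact congrArg Subtype.val h8

end Pool.Agent.H78.KT
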